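import Pool.Agent.Y298.EX.Stm
set_option autoImplicit false

/-! # A holomorphic preimage of the critical point -/

open Set Filter Metric MeasureTheory Topology


namespace Pool.Agent.Y407.EX

open Pool.Agent.Y298.EX

/-- a holomorphic preimage of the critical point -/
theorem t (h : S_INV) : S_ROOT := by
  intro d c₀ δ hd hc0 hc2 hδ
  obtain ⟨ζ₀, hζ⟩ := IsAlgClosed.exists_pow_nat_eq (-c₀) (n := d) (by omega)
  have hζ0 : ζ₀ ≠ 0 := by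
    rintro rfl
    rw [zero_pow (by omega)] at hζ
    exact hc0 (by rw [← neg_eq_zero]; exact hζ.symm)
  have hζ2 : ‖ζ₀‖ ≤ 2 := by
    by_contra hcon
    push Not at hcon
    have h1 : ‖ζ₀‖ ^ d = ‖c₀‖ := by rw [← norm_pow, hζ, norm_neg]
    have h2 : ‖ζ₀‖ ^ 1 ≤ ‖ζ₀‖ ^ d := pow_le_pow_right₀ (by linarith) (by omega)
    rw [pow_one] at h2
    linarith
  set D : ℂ := -((d : ℂ) * ζ₀ ^ (d - 1)) with hD
  have hdC : (d : ℂ) ≠ 0 := by exact_mod_cast (show d ≠ 0 by omega)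
  have hD0 : D ≠ 0 := by
    rw [hD]
    exact neg_ne_zero.2 (mul_ne_zero hdC (pow_ne_zero _ hζ0))
  have hDn : 0 < ‖D‖ := norm_pos_iff.2 hD0
  have hcont : Continuous (fun z : ℂ => (d : ℂ) * z ^ (d - 1)) := by fun_prop
  obtain ⟨ρ₁, hρ₁, hball⟩ := Metric.continuousAt_iff.1 (hcont.continuousAt (x := ζ₀)) (‖D‖ / 8)
    (by positivity)
  set ρ : ℝ := min δ (min 1 ρ₁) with hρ
  have hρ0 : 0 < ρ := lt_min hδ (lt_min one_pos hρ₁)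
  have hρδ : ρ ≤ δ := min_le_left _ _
  have hρ1 : ρ ≤ 1 := (min_le_right _ _).trans (min_le_left _ _)
  have hρρ₁ : ρ ≤ ρ₁ := (min_le_right _ _).trans (min_le_right _ _)
  refine ⟨ζ₀, min (‖D‖ / 8) (‖D‖ * ρ / 8), hζ, by positivity, ?_⟩
  set s₀ : ℝ := min (‖D‖ / 8) (‖D‖ * ρ / 8) with hs₀
  have hs1 : s₀ ≤ ‖D‖ / 8 := min_le_left _ _
  have hs2 : s₀ ≤ ‖D‖ * ρ / 8 := min_le_right _ _
  have hs0 : 0 < s₀ := by positivity
  intro a κ ha hκ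
  have h8 : ∀ z ∈ ball ζ₀ ρ, z ∈ ball (0 : ℂ) 8 := by
    intro z hz
    rw [mem_ball_zero_iff]
    rw [mem_ball, dist_eq_norm] at hz
    have : ‖z‖ ≤ ‖z - ζ₀‖ + ‖ζ₀‖ := by
      calc ‖z‖ = ‖(z - ζ₀) + ζ₀‖ := by rw [sub_add_cancel]
        _ ≤ _ := norm_add_le _ _
    linarith
  have hder : ∀ z : ℂ, HasDerivAt (fun z : ℂ => κ - z ^ d - a z)
      (-((d : ℂ) * z ^ (d - 1)) - deriv a z) z := by
    intro z
    have h1 : HasDerivAt (fun z : ℂ => κ - z ^ d) (-((d : ℂ) * z ^ (d - 1))) z := by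
      simpa using (hasDerivAt_pow d z).const_sub κ
    exact h1.sub (ha.hol z).hasDerivAt
  have hdist : ∀ w' ∈ ball ζ₀ ρ, ‖deriv (fun z : ℂ => κ - z ^ d - a z) w' - D‖ ≤ 1 / 4 * ‖D‖ := by
    intro z hz
    rw [(hder z).deriv]
    have h1 : ‖(d : ℂ) * z ^ (d - 1) - (d : ℂ) * ζ₀ ^ (d - 1)‖ < ‖D‖ / 8 := by
      have := hball (x := z) (lt_of_lt_of_le hz hρρ₁)
      rwa [dist_eq_norm] at this
    have h2 := ha.dle z (h8 z hz)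
    calc ‖-((d : ℂ) * z ^ (d - 1)) - deriv a z - D‖
        = ‖-((d : ℂ) * z ^ (d - 1) - (d : ℂ) * ζ₀ ^ (d - 1)) - deriv a z‖ := by
          congr 1; rw [hD]; ring
      _ ≤ ‖-((d : ℂ) * z ^ (d - 1) - (d : ℂ) * ζ₀ ^ (d - 1))‖ + ‖deriv a z‖ := norm_sub_le _ _
      _ ≤ ‖D‖ / 8 + ‖D‖ / 8 := by rw [norm_neg]; linarith
      _ = 1 / 4 * ‖D‖ := by ring
  obtain ⟨G, hG1, hG2⟩ := h (fun z : ℂ => κ - z ^ d - a z) ζ₀ D ρ hρ0 hD0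
    (fun z _ => (hder z).differentiableAt.differentiableWithinAt) hdist
  have hF0 : κ - ζ₀ ^ d - a ζ₀ = κ + c₀ - a ζ₀ := by rw [hζ]; ring
  have hsub : ball c₀ s₀ ⊆ ball (κ - ζ₀ ^ d - a ζ₀) (‖D‖ * ρ / 2) := by
    intro w hw
    rw [mem_ball, dist_eq_norm] at hw ⊢
    have h1 := ha.le ζ₀ (h8 ζ₀ (mem_ball_self hρ0))
    rw [hF0]
    have h2 : ‖w - (κ + c₀ - a ζ₀)‖ ≤ ‖w - c₀‖ + ‖κ‖ + ‖a ζ₀‖ := by
      calc ‖w - (κ + c₀ - a ζ₀)‖ = ‖(w - c₀) - κ + a ζ₀‖ := by congr 1; ring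
        _ ≤ ‖(w - c₀) - κ‖ + ‖a ζ₀‖ := norm_add_le _ _
        _ ≤ _ := by gcongr; exact norm_sub_le _ _
    have h3 : 0 < ‖D‖ * ρ := by positivity
    linarith
  refine ⟨G, hG1.mono hsub, ?_⟩
  intro w hw
  obtain ⟨h1, h2⟩ := hG2 w (hsub hw)
  rw [mem_ball, dist_eq_norm] at h1
  refine ⟨h1.le.trans hρδ, ?_⟩
  linear_combination -h2

end Pool.Agent.Y407.EX
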